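import Pool.Agent.R509.ETH.Freq

/-!
Library R509.ETH (helper509): covering numbers and representation functions of order `h`.
-/

set_option autoImplicit false

namespace Pool.Agent.R509.ETH

open Finset Filter
open Pool.Agent.TH314.ET (seg mem_seg seg_sub seg_card)
open Pool.Agent.TH314.ETH (tup RF RF_le rep msets msets_finite IsBasis Growth ThickAll thickAll_of_basis thickAll_of_growth)
open Pool.Agent.R509.ET (box)

lemma seg_mono (A B : Set ℕ) (h : B ⊆ A) (N : ℕ) : seg B N ⊆ seg A N := by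
  intro a ha
  rw [mem_seg] at ha ⊢
  exact ⟨ha.1, h ha.2⟩

/-- the constant -/
noncomputable def cst (h : ℕ) : ℝ := 16 * (6 * (h : ℝ)) ^ h * (h + 4)

lemma cst_pos (h : ℕ) (hh : 1 ≤ h) : 0 < cst h := by
  unfold cst
  have : (0 : ℝ) < h := by exact_mod_cast hh
  positivity

/-- the first part -/
theorem part1 (h : ℕ) (hh : 2 ≤ h) (A : Set ℕ) (N R : ℕ) (hN : 1 ≤ N) (hR : ∀ n ≤ h * N, rep A h n ≤ R) :
    ∑ i ∈ range (Nat.log 2 N + 1), ((seg A N).card : ℝ) ^ h / ((2 : ℝ) ^ i * (box (seg A N) i : ℝ) ^ h) ≤ cst h * R := by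
  obtain ⟨p, rfl⟩ : ∃ p, h = p + 1 := ⟨h - 1, by omega⟩
  have h1 : ∀ n, RF (seg A N) (p + 1) n ≤ (p + 1) ^ (p + 1) * R := by
    intro n
    rcases le_or_gt n ((p + 1) * N) with h2 | h2
    · exact (RF_le (fun a ha => (mem_seg.1 ha).2) (p + 1) n).trans (Nat.mul_le_mul_left _ (hR n h2))
    · have h3 : RF (seg A N) (p + 1) n = 0 := by
        unfold RF
        rw [card_eq_zero, filter_eq_empty_iff]
        intro v hv hs
        unfold tup at hv
        rw [Fintype.mem_piFinset] at hv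
        have h4 : ∑ i, v i ≤ ∑ _i : Fin (p + 1), N := sum_le_sum fun i _ => (mem_seg.1 (hv i)).1.2
        rw [sum_const, card_univ, Fintype.card_fin, smul_eq_mul] at h4
        omega
      rw [h3]
      exact Nat.zero_le _
  have h2 := cover p (by omega) (seg A N) N hN (seg_sub A N) _ h1
  refine h2.trans (le_of_eq ?_)
  unfold cst
  push_cast
  rw [mul_pow]
  ring

lemma rep_mono (h : ℕ) (A B : Set ℕ) (hBA : B ⊆ A) (n : ℕ) : rep B h n ≤ rep A h n := by
  unfold rep
  apply Set.ncard_le_ncard _ (msets_finite A h n)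
  rintro s ⟨h1, h2, h3⟩
  exact ⟨h1, fun a ha => hBA (h2 a ha), h3⟩

/-- the growth condition -/
def Grows (A : Set ℕ) (h : ℕ) : Prop := IsBasis A h ∨ Growth A h

lemma grow (A : Set ℕ) (h : ℕ) (hh : 2 ≤ h) (hA : Grows A h) :
    ∃ c : ℝ, 0 < c ∧ ∀ᶠ N : ℕ in atTop, c * N ≤ ((seg A N).card : ℝ) ^ h := by
  have h1 : ThickAll A h := by
    rcases hA with h1 | h1
    · exact thickAll_of_basis A (by omega) h1
    · exact thickAll_of_growth A (by omega) h1
  obtain ⟨c, hc, h2⟩ := h1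
  refine ⟨c, hc, h2.mono fun N hN => ?_⟩
  rwa [← seg_card]

theorem part2 (h : ℕ) (hh : 2 ≤ h) (A : Set ℕ) (hA : Grows A h) (K : ℕ) (hK : ∀ n, rep A h n ≤ K) :
    ∃ C : ℝ, ∀ N : ℕ, 1 ≤ N → ∑ i ∈ range (Nat.log 2 N + 1), (N : ℝ) / ((2 : ℝ) ^ i * (box (seg A N) i : ℝ) ^ h) ≤ C := by
  obtain ⟨c, hc, h0⟩ := grow A h hh hA
  obtain ⟨x₀, hx₀⟩ := eventually_atTop.1 h0
  have hcst := cst_pos h (by omega)
  refine ⟨cst h * K / c + 2 * x₀, fun x hx1 => ?_⟩
  rcases le_or_gt x₀ x with hx | hx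
  · have h1 := part1 h hh A x K hx1 (fun n _ => hK n)
    have h2 := hx₀ x hx
    have h3 : ∀ i ∈ range (Nat.log 2 x + 1), (x : ℝ) / ((2 : ℝ) ^ i * (box (seg A x) i : ℝ) ^ h) ≤
        1 / c * (((seg A x).card : ℝ) ^ h / ((2 : ℝ) ^ i * (box (seg A x) i : ℝ) ^ h)) := by
      intro i _
      rw [← mul_div_assoc]
      apply div_le_div_of_nonneg_right _ (by positivity)
      rw [div_mul_eq_mul_div, one_mul, le_div_iff₀ hc]
      linarith
    have h4 := sum_le_sum h3
    rw [← mul_sum] at h4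
    have h5 := mul_le_mul_of_nonneg_left h1 (by positivity : 0 ≤ 1 / c)
    have h6 : 1 / c * (cst h * (K : ℝ)) = cst h * K / c := by ring
    have h7 : (0 : ℝ) ≤ 2 * x₀ := by positivity
    linarith
  · have h1 : ∀ i ∈ range (Nat.log 2 x + 1), (x : ℝ) / ((2 : ℝ) ^ i * (box (seg A x) i : ℝ) ^ h) ≤ x₀ * (1 / 2) ^ i := by
      intro i _
      have h2 : (x : ℝ) ≤ x₀ := by exact_mod_cast hx.le
      rcases Nat.eq_zero_or_pos (box (seg A x) i) with h3 | h3
      · rw [h3]
        have : ((0 : ℕ) : ℝ) ^ h = 0 := by rw [Nat.cast_zero, zero_pow (by omega)]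
        rw [this, mul_zero, div_zero]
        positivity
      · have h4 : (1 : ℝ) ≤ box (seg A x) i := by exact_mod_cast h3
        have h5 : (2 : ℝ) ^ i * 1 ≤ 2 ^ i * (box (seg A x) i : ℝ) ^ h :=
          mul_le_mul_of_nonneg_left (one_le_pow₀ h4) (by positivity)
        rw [mul_one] at h5
        calc (x : ℝ) / ((2 : ℝ) ^ i * (box (seg A x) i : ℝ) ^ h) ≤ x₀ / (2 : ℝ) ^ i := by
              apply div_le_div₀ (by positivity) h2 (by positivity) h5
          _ = _ := by rw [one_div, inv_pow]; rfl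
    have h2 := sum_le_sum h1
    rw [← mul_sum] at h2
    have h3 : ∑ i ∈ range (Nat.log 2 x + 1), ((1 : ℝ) / 2) ^ i ≤ 2 := by
      have := sum_geometric_two_le (Nat.log 2 x + 1)
      simpa using this
    have h4 := mul_le_mul_of_nonneg_left h3 (Nat.cast_nonneg (α := ℝ) x₀)
    have h5 : (0 : ℝ) ≤ cst h * K / c := by positivity
    linarith

open Classical in
/-- the set `B` is covered by few intervals at many scales below `x` -/
def Reg (h : ℕ) (B : Set ℕ) (T δ : ℝ) (x : ℕ) : Prop := δ * Real.log x ≤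
  (((range (Nat.log 2 x + 1)).filter (fun i => (2 : ℝ) ^ i * (box (seg B x) i : ℝ) ^ h ≤ T * x)).card : ℝ)

theorem part3 (h : ℕ) (hh : 2 ≤ h) (A B : Set ℕ) (hBA : B ⊆ A) (c T δ : ℝ) (hc : 0 < c) (hT : 0 < T) (hδ : 0 < δ)
    (H : ∃ᶠ x : ℕ in atTop, c * x ≤ ((seg B x).card : ℝ) ^ h ∧ Reg h B T δ x) :
    ∃ c : ℝ, 0 < c ∧ ∃ᶠ n : ℕ in atTop, c * Real.log n ≤ rep A h n := by
  have hcst := cst_pos h (by omega)
  set κ : ℝ := c * δ / (cst h * T) with hκ
  have hκ0 : 0 < κ := by positivity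
  have key : ∃ᶠ x : ℕ in atTop, ∃ n < h * x + 1, κ * Real.log x ≤ rep A h n := by
    have h1 := H.and_eventually (eventually_ge_atTop 1)
    refine h1.mono fun x hx => ?_
    obtain ⟨⟨hx2, hx1⟩, hx3⟩ := hx
    unfold Reg at hx1
    by_contra hcon
    push Not at hcon
    have hx0 : (0 : ℝ) < x := by exact_mod_cast hx3
    -- the maximum
    obtain ⟨m, hm1, hm2⟩ := exists_max_image (range (h * x + 1)) (rep A h) ⟨0, mem_range.2 (by omega)⟩
    have h2 := part1 h hh B x (rep A h m) hx3 (fun n hn => (rep_mono h A B hBA n).trans (hm2 n (mem_range.2 (by omega))))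
    have h3 := hcon m (mem_range.1 hm1)
    set G := (range (Nat.log 2 x + 1)).filter (fun i => (2 : ℝ) ^ i * (box (seg B x) i : ℝ) ^ h ≤ T * x) with hG
    have hcard : (0 : ℝ) < ((seg B x).card : ℝ) ^ h := lt_of_lt_of_le (by positivity) hx2
    have hne : 0 < (seg B x).card := by
      rcases Nat.eq_zero_or_pos (seg B x).card with h | h
      · rw [h, Nat.cast_zero, zero_pow (by omega)] at hcard
        exact absurd hcard (lt_irrefl _)
      · exact h
    have h4 : ∑ i ∈ G, c / T ≤ ∑ i ∈ range (Nat.log 2 x + 1), ((seg B x).card : ℝ) ^ h / ((2 : ℝ) ^ i * (box (seg B x) i : ℝ) ^ h) := by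
      refine (sum_le_sum ?_).trans (sum_le_sum_of_subset_of_nonneg (filter_subset _ _) (fun _ _ _ => by positivity))
      intro i hi
      rw [hG, mem_filter] at hi
      have h5 : 0 < box (seg B x) i := by
        unfold Pool.Agent.R509.ET.box
        rw [card_pos]
        exact (card_pos.1 hne).image _
      have h6 : (0 : ℝ) < box (seg B x) i := by exact_mod_cast h5
      calc c / T = (c * x) / (T * x) := by field_simp
        _ ≤ _ := by
          apply div_le_div₀ (by positivity) hx2 (by positivity) hi.2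
    rw [sum_const, nsmul_eq_mul] at h4
    have h5 : (G.card : ℝ) * (c / T) ≤ cst h * rep A h m := h4.trans h2
    have h6 : δ * Real.log x * (c / T) ≤ G.card * (c / T) := mul_le_mul_of_nonneg_right hx1 (by positivity)
    have h7 : cst h * (κ * Real.log x) = δ * Real.log x * (c / T) := by
      rw [hκ]
      field_simp
    have h8 := mul_lt_mul_of_pos_left h3 hcst
    linarith
  refine ⟨κ / 2, by positivity, ?_⟩
  rw [frequently_atTop] at key ⊢
  intro N
  -- `rep A h n` is bounded on bounded intervals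
  have hb : ∀ n < N, rep A h n ≤ ∑ n ∈ range N, rep A h n := fun n hn => single_le_sum (f := rep A h) (fun _ _ => Nat.zero_le _) (mem_range.2 hn)
  have h1 : Tendsto (fun x : ℕ => κ * Real.log x) atTop atTop :=
    (Real.tendsto_log_atTop.comp tendsto_natCast_atTop_atTop).const_mul_atTop hκ0
  obtain ⟨x₀, hx₀⟩ := eventually_atTop.1 (h1.eventually_ge_atTop (((∑ n ∈ range N, rep A h n : ℕ) : ℝ) + 1))
  obtain ⟨x, hx, n, hn, hr⟩ := key (x₀ + 2 * h + 2)
  have h2 := hx₀ x (by omega)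
  have hnN : N ≤ n := by
    by_contra hcon
    have h3 : (rep A h n : ℝ) ≤ ((∑ n ∈ range N, rep A h n : ℕ) : ℝ) := by exact_mod_cast hb n (by omega)
    linarith
  refine ⟨n, hnN, ?_⟩
  refine le_trans ?_ hr
  have hx2 : (2 : ℝ) ≤ x := by exact_mod_cast (by omega : 2 ≤ x)
  rcases Nat.eq_zero_or_pos n with hn0 | hn0
  · rw [hn0, Nat.cast_zero, Real.log_zero, mul_zero]
    have : 0 ≤ Real.log x := Real.log_nonneg (by linarith)
    positivity
  have hn1 : (1 : ℝ) ≤ n := by exact_mod_cast hn0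
  have h6 : Real.log n ≤ 2 * Real.log x := by
    have h7 : (n : ℝ) ≤ x * x := by
      have h8 : n ≤ x * x := by
        have h9 : h * x + x ≤ x * x := by
          have : (h + 1) * x ≤ x * x := Nat.mul_le_mul_right x (by omega)
          linarith
        omega
      exact_mod_cast h8
    have h8 := Real.log_le_log (by linarith) h7
    rw [Real.log_mul (by linarith) (by linarith)] at h8
    linarith
  nlinarith

theorem part4 (h : ℕ) (hh : 2 ≤ h) (A : Set ℕ) (hA : Grows A h) (k : ℕ) (B : Fin k → Set ℕ) (hAB : A = ⋃ j, B j)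
    (T δ : ℝ) (hT : 0 < T) (hδ : 0 < δ) (H : ∃ᶠ x : ℕ in atTop, ∀ j, Reg h (B j) T δ x) :
    ∃ c : ℝ, 0 < c ∧ ∃ᶠ n : ℕ in atTop, c * Real.log n ≤ rep A h n := by
  obtain ⟨p, rfl⟩ : ∃ p, h = p + 1 := ⟨h - 1, by omega⟩
  obtain ⟨c, hc, hg⟩ := grow A (p + 1) hh hA
  have h1 := H.and_eventually (hg.and (eventually_ge_atTop 1))
  have h2 : ∃ᶠ x : ℕ in atTop, ∃ j, c / (k : ℝ) ^ (p + 1) * x ≤ ((seg (B j) x).card : ℝ) ^ (p + 1) ∧ Reg (p + 1) (B j) T δ x := by
    refine h1.mono fun x hx => ?_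
    obtain ⟨hx1, hx2, hx3⟩ := hx
    by_contra hcon
    push Not at hcon
    have hx0 : (0 : ℝ) < x := by exact_mod_cast hx3
    have h3 : ∀ j, ((seg (B j) x).card : ℝ) ^ (p + 1) < c / (k : ℝ) ^ (p + 1) * x := by
      intro j
      by_contra h4
      exact hcon j (not_lt.1 h4) (hx1 j)
    have h4 : seg A x ⊆ univ.biUnion fun j => seg (B j) x := by
      intro a ha
      rw [mem_seg, hAB, Set.mem_iUnion] at ha
      obtain ⟨ha1, j, ha2⟩ := ha
      rw [mem_biUnion]
      exact ⟨j, mem_univ _, mem_seg.2 ⟨ha1, ha2⟩⟩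
    have h5 : ((seg A x).card : ℝ) ≤ ∑ j : Fin k, ((seg (B j) x).card : ℝ) := by
      exact_mod_cast (card_le_card h4).trans card_biUnion_le
    have hk : 0 < k := by
      rcases Nat.eq_zero_or_pos k with h6 | h6
      · subst h6
        rw [univ_eq_empty, sum_empty] at h5
        have h7 : ((seg A x).card : ℝ) = 0 := le_antisymm h5 (Nat.cast_nonneg _)
        rw [h7, zero_pow (by omega)] at hx2
        have : 0 < c * x := by positivity
        linarith
      · exact h6
    have hk0 : (0 : ℝ) < k := by exact_mod_cast hk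
    have h6 : (∑ j : Fin k, ((seg (B j) x).card : ℝ)) ^ (p + 1) ≤ (k : ℝ) ^ p * ∑ j : Fin k, ((seg (B j) x).card : ℝ) ^ (p + 1) := by
      have := pow_sum_div_card_le_sum_pow (s := (univ : Finset (Fin k))) (f := fun j => ((seg (B j) x).card : ℝ)) (fun _ _ => Nat.cast_nonneg _) p
      rw [card_univ, Fintype.card_fin, div_le_iff₀ (by positivity)] at this
      linarith
    have h7 : ∑ j : Fin k, ((seg (B j) x).card : ℝ) ^ (p + 1) < ∑ _j : Fin k, c / (k : ℝ) ^ (p + 1) * x := by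
      apply sum_lt_sum_of_nonempty
      · exact ⟨⟨0, hk⟩, mem_univ _⟩
      · intro j _
        exact h3 j
    rw [sum_const, card_univ, Fintype.card_fin, nsmul_eq_mul] at h7
    have h8 : ((seg A x).card : ℝ) ^ (p + 1) ≤ (∑ j : Fin k, ((seg (B j) x).card : ℝ)) ^ (p + 1) := pow_le_pow_left₀ (Nat.cast_nonneg _) h5 _
    have h9 : (k : ℝ) ^ p * (k * (c / (k : ℝ) ^ (p + 1) * x)) = c * x := by
      rw [pow_succ]
      field_simp
    have h10 := mul_lt_mul_of_pos_left h7 (by positivity : (0 : ℝ) < (k : ℝ) ^ p)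
    linarith
  have h3 : ∃ j, ∃ᶠ x : ℕ in atTop, c / (k : ℝ) ^ (p + 1) * x ≤ ((seg (B j) x).card : ℝ) ^ (p + 1) ∧ Reg (p + 1) (B j) T δ x := by
    by_contra hcon
    push Not at hcon
    apply h2
    have h4 : ∀ᶠ x : ℕ in atTop, ∀ j, c / (k : ℝ) ^ (p + 1) * x ≤ ((seg (B j) x).card : ℝ) ^ (p + 1) → ¬ Reg (p + 1) (B j) T δ x := by
      rw [eventually_all]
      exact hcon
    filter_upwards [h4] with x hx
    rintro ⟨j, hj1, hj2⟩
    exact hx j hj1 hj2
  obtain ⟨j, hj⟩ := h3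
  have hk : 0 < k := Fin.pos j
  have hk0 : (0 : ℝ) < k := by exact_mod_cast hk
  exact part3 (p + 1) hh A (B j) (by rw [hAB]; exact Set.subset_iUnion _ _) (c / (k : ℝ) ^ (p + 1)) T δ (by positivity) hT hδ hj

/-- In base `g ^ h` the digits of the elements of `B` are restricted to `g` values, depending on the higher digits. -/
def Tree (h g : ℕ) (B : Set ℕ) : Prop := ∀ i j : ℕ, {l : ℕ | l / g ^ h = j ∧ ∃ b ∈ B, b / (g ^ h) ^ i = l}.ncard ≤ g

/-- the nodes at the level `l` -/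
def node (S : Finset ℕ) (G l : ℕ) : Finset ℕ := S.image (fun b => b / G ^ l)

lemma node_top (S : Finset ℕ) (G m : ℕ) (hS : ∀ b ∈ S, b < G ^ m) : (node S G m).card ≤ 1 := by
  have : node S G m ⊆ {0} := by
    intro t ht
    unfold node at ht
    rw [mem_image] at ht
    obtain ⟨b, hb, rfl⟩ := ht
    rw [mem_singleton]
    exact Nat.div_eq_of_lt (hS b hb)
  exact (card_le_card this).trans (by simp)

lemma node_step (h : ℕ) (S : Finset ℕ) (g : ℕ) (hg : 1 ≤ g) (B : Set ℕ) (hB : Tree h g B) (hS : ∀ b ∈ S, b ∈ B) (l : ℕ) :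
    (node S (g ^ h) l).card ≤ g * (node S (g ^ h) (l + 1)).card := by
  have hG : 0 < g ^ h := by positivity
  have h1 := card_eq_sum_card_fiberwise (f := fun t : ℕ => t / g ^ h) (s := node S (g ^ h) l) (t := node S (g ^ h) (l + 1))
    (fun t ht => by
      rw [mem_coe] at ht ⊢
      unfold node at ht ⊢
      rw [mem_image] at ht ⊢
      obtain ⟨b, hb, rfl⟩ := ht
      exact ⟨b, hb, by simp only; rw [Nat.div_div_eq_div_mul, pow_succ]⟩)
  rw [h1, mul_comm, ← smul_eq_mul]
  apply sum_le_card_nsmul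
  intro j _
  refine le_trans ?_ (hB l j)
  rw [← Set.ncard_coe_finset]
  apply Set.ncard_le_ncard
  · intro t ht
    rw [mem_coe, mem_filter] at ht
    obtain ⟨h2, h3⟩ := ht
    unfold node at h2
    rw [mem_image] at h2
    obtain ⟨b, hb, h4⟩ := h2
    exact ⟨h3, b, hS b hb, h4⟩
  · apply Set.Finite.subset (finite_toSet (range ((j + 1) * g ^ h)))
    rintro t ⟨h2, _⟩
    rw [mem_coe, mem_range]
    have := Nat.div_add_mod t (g ^ h)
    have h3 := Nat.mod_lt t hG
    rw [h2] at this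
    rw [add_mul, one_mul, mul_comm j]
    omega

lemma node_le (h : ℕ) (S : Finset ℕ) (g : ℕ) (hg : 1 ≤ g) (B : Set ℕ) (hB : Tree h g B) (hS : ∀ b ∈ S, b ∈ B) (m : ℕ)
    (hSm : ∀ b ∈ S, b < (g ^ h) ^ m) (k : ℕ) (hk : k ≤ m) : (node S (g ^ h) (m - k)).card ≤ g ^ k := by
  induction k with
  | zero => simpa using node_top S (g ^ h) m hSm
  | succ k ih =>
    have h1 := ih (by omega)
    have h2 := node_step h S g hg B hB hS (m - (k + 1))
    rw [show m - (k + 1) + 1 = m - k by omega] at h2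
    have h3 := h2.trans (Nat.mul_le_mul_left g h1)
    rwa [← Nat.pow_succ'] at h3

lemma box_node (S : Finset ℕ) (G l i : ℕ) (hG : 0 < G) (h : G ^ l ≤ 2 ^ i) : box S i ≤ 2 * (node S G l).card := by
  unfold Pool.Agent.R509.ET.box
  have h1 : S.image (fun a => a / 2 ^ i) ⊆ (node S G l).image (fun t => t * G ^ l / 2 ^ i) ∪
      (node S G l).image (fun t => t * G ^ l / 2 ^ i + 1) := by
    intro u hu
    rw [mem_image] at hu
    obtain ⟨a, ha, rfl⟩ := hu
    have hGl : 0 < G ^ l := by positivity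
    have h2p : 0 < 2 ^ i := by positivity
    have h2 : a / G ^ l ∈ node S G l := mem_image_of_mem _ ha
    set t := a / G ^ l with ht
    have h3 : t * G ^ l ≤ a := Nat.div_mul_le_self a _
    have h4 : a < t * G ^ l + 2 ^ i := by
      have := Nat.div_add_mod a (G ^ l)
      have h5 := Nat.mod_lt a hGl
      rw [mul_comm] at this
      rw [← ht] at this
      omega
    have h5 : t * G ^ l / 2 ^ i ≤ a / 2 ^ i := Nat.div_le_div_right h3
    have h6 : a / 2 ^ i ≤ t * G ^ l / 2 ^ i + 1 := by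
      rw [← Nat.add_div_right _ h2p]
      exact Nat.div_le_div_right h4.le
    rw [mem_union, mem_image, mem_image]
    rcases Nat.lt_or_ge (t * G ^ l / 2 ^ i) (a / 2 ^ i) with h7 | h7
    · right
      exact ⟨t, h2, by omega⟩
    · left
      exact ⟨t, h2, by omega⟩
  refine (card_le_card h1).trans ((card_union_le _ _).trans ?_)
  have h2 := card_image_le (s := node S G l) (f := fun t => t * G ^ l / 2 ^ i)
  have h3 := card_image_le (s := node S G l) (f := fun t => t * G ^ l / 2 ^ i + 1)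
  omega

lemma tree_reg (h : ℕ) (hh : 2 ≤ h) (g : ℕ) (hg : 2 ≤ g) (B : Set ℕ) (hB : Tree h g B) (x : ℕ) (hx : 1 ≤ x) (T : ℝ)
    (hT : 2 ^ h * ((g : ℝ) ^ h) ^ 2 ≤ T) : Reg h B T 1 x := by
  classical
  unfold Reg
  have hall : (range (Nat.log 2 x + 1)).filter (fun i => (2 : ℝ) ^ i * (box (seg B x) i : ℝ) ^ h ≤ T * x) = range (Nat.log 2 x + 1) := by
    rw [filter_eq_self]
    intro i hi
    rw [mem_range] at hi
    have hx0 : (0 : ℝ) < x := by exact_mod_cast hx
    set G := g ^ h with hG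
    have hG1 : 1 < G := by
      rw [hG]
      exact Nat.one_lt_pow (by omega) (by omega)
    set m := Nat.log G x + 1 with hm
    have hm1 : x < G ^ m := Nat.lt_pow_succ_log_self hG1 x
    have hm2 : G ^ m ≤ G * x := by
      rw [hm, pow_succ, mul_comm]
      exact Nat.mul_le_mul_left G (Nat.pow_log_le_self G (by omega))
    have hi2 : 2 ^ i ≤ x := by
      have : 2 ^ i ≤ 2 ^ Nat.log 2 x := Nat.pow_le_pow_right (by norm_num) (by omega)
      exact this.trans (Nat.pow_log_le_self 2 (by omega))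
    set l := Nat.log G (2 ^ i) with hl
    have hl1 : G ^ l ≤ 2 ^ i := Nat.pow_log_le_self G (by positivity)
    have hl2 : 2 ^ i < G ^ (l + 1) := Nat.lt_pow_succ_log_self hG1 _
    have hlm : l ≤ m := by
      by_contra hcon
      have : G ^ m ≤ G ^ l := Nat.pow_le_pow_right (by omega) (by omega)
      omega
    have h1 := box_node (seg B x) G l i (by omega) hl1
    have h2 := node_le h (seg B x) g (by omega) B hB (fun b hb => (mem_seg.1 hb).2) m
      (fun b hb => lt_of_le_of_lt (mem_seg.1 hb).1.2 hm1) (m - l) (by omega)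
    rw [show m - (m - l) = l by omega] at h2
    have h3 : box (seg B x) i ≤ 2 * g ^ (m - l) := h1.trans (Nat.mul_le_mul_left 2 h2)
    have h4 : 2 ^ i * box (seg B x) i ^ h ≤ G ^ (l + 1) * (2 * g ^ (m - l)) ^ h :=
      Nat.mul_le_mul hl2.le (Nat.pow_le_pow_left h3 h)
    have h5 : G ^ (l + 1) * (2 * g ^ (m - l)) ^ h = 2 ^ h * G * G ^ m := by
      have h6 : (g ^ (m - l)) ^ h = G ^ (m - l) := by rw [hG, ← pow_mul, ← pow_mul, mul_comm]
      have h7 : G ^ m = G ^ l * G ^ (m - l) := by rw [← pow_add]; congr 1; omega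
      rw [mul_pow, h6, h7, pow_succ]
      ring
    have h6 : 2 ^ i * box (seg B x) i ^ h ≤ 2 ^ h * G * (G * x) := by
      rw [h5] at h4
      exact h4.trans (Nat.mul_le_mul_left _ hm2)
    have h7 : (2 : ℝ) ^ i * (box (seg B x) i : ℝ) ^ h ≤ 2 ^ h * (g : ℝ) ^ h * ((g : ℝ) ^ h * x) := by
      have : ((2 ^ i * box (seg B x) i ^ h : ℕ) : ℝ) ≤ ((2 ^ h * G * (G * x) : ℕ) : ℝ) := by exact_mod_cast h6
      rw [hG] at this
      push_cast at this
      exact this
    refine h7.trans ?_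
    have h8 := mul_le_mul_of_nonneg_right hT hx0.le
    have h9 : 2 ^ h * (g : ℝ) ^ h * ((g : ℝ) ^ h * x) = 2 ^ h * ((g : ℝ) ^ h) ^ 2 * x := by ring
    rw [h9]
    exact h8
  rw [hall, card_range, one_mul]
  have hx0 : (0 : ℝ) < x := by exact_mod_cast hx
  have h1 : x < 2 ^ (Nat.log 2 x + 1) := Nat.lt_pow_succ_log_self (by norm_num) x
  have h2 : (x : ℝ) ≤ 2 ^ (Nat.log 2 x + 1) := by exact_mod_cast h1.le
  have h3 := Real.log_le_log hx0 h2
  rw [Real.log_pow] at h3
  have h4 : Real.log 2 ≤ 1 := by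
    have := Real.log_two_lt_d9
    linarith
  have h5 : (0 : ℝ) ≤ ((Nat.log 2 x + 1 : ℕ) : ℝ) := Nat.cast_nonneg _
  nlinarith

theorem part5 (h : ℕ) (hh : 2 ≤ h) (A : Set ℕ) (hA : Grows A h) (k : ℕ) (B : Fin k → Set ℕ) (g : Fin k → ℕ)
    (hg : ∀ j, 2 ≤ g j) (hB : ∀ j, Tree h (g j) (B j)) (hAB : A = ⋃ j, B j) :
    ∃ c : ℝ, 0 < c ∧ ∃ᶠ n : ℕ in atTop, c * Real.log n ≤ rep A h n := by
  set T : ℝ := 1 + ∑ j, 2 ^ h * ((g j : ℝ) ^ h) ^ 2 with hT
  have hT0 : 0 < T := by positivity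
  apply part4 h hh A hA k B hAB T 1 hT0 one_pos
  apply Eventually.frequently
  filter_upwards [eventually_ge_atTop 1] with x hx j
  apply tree_reg h hh (g j) (hg j) (B j) (hB j) x hx
  have := single_le_sum (f := fun j => 2 ^ h * ((g j : ℝ) ^ h) ^ 2) (fun _ _ => by positivity) (mem_univ j)
  rw [hT]
  linarith

end Pool.Agent.R509.ETH
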