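import Pool.Agent.R509.ETH.Hardy
import Pool.Agent.TH314.ETH.Res

/-!
Library R509.ETH (helper509): covering numbers and the energy of order `h`.
-/

set_option autoImplicit false

namespace Pool.Agent.R509.ETH

open Finset
open Pool.Agent.Helper112 (ee ls_ee_add ls_ee_zero ls_conj_ee ls_norm_ee lsSep)
open Pool.Agent.TH314.ET (Sf ind Sf_ind seg mem_seg seg_sub seg_card)
open Pool.Agent.TH314.ETH (tup RF RF_le moment_sep)
open Pool.Agent.R509.ET (dif box box_le)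

lemma ee_re (t : ℝ) : (ee t).re = Real.cos (2 * Real.pi * t) := by
  unfold ee
  have : (2 * Real.pi * t * Complex.I : ℂ) = ((2 * Real.pi * t : ℝ) : ℂ) * Complex.I := by push_cast; ring
  rw [this, Complex.exp_ofReal_mul_I_re]

lemma geo_low (R : ℕ) (t : ℝ) (h : ∀ k < R, |(k : ℝ) * t| ≤ 1 / 8) : (R : ℝ) ^ 2 / 2 ≤ ‖∑ k ∈ range R, ee ((k : ℝ) * t)‖ ^ 2 := by
  have hpi := Real.pi_pos
  have h1 : ∀ k ∈ range R, Real.sqrt 2 / 2 ≤ (ee ((k : ℝ) * t)).re := by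
    intro k hk
    rw [mem_range] at hk
    rw [ee_re, ← Real.cos_abs, ← Real.cos_pi_div_four]
    apply Real.cos_le_cos_of_nonneg_of_le_pi (abs_nonneg _) (by linarith)
    rw [abs_mul, abs_of_pos (by positivity : 0 < 2 * Real.pi)]
    have := mul_le_mul_of_nonneg_left (h k hk) (by positivity : 0 ≤ 2 * Real.pi)
    linarith
  have h2 := sum_le_sum h1
  rw [sum_const, card_range, nsmul_eq_mul, ← Complex.re_sum] at h2
  have h3 := (Complex.re_le_norm (∑ k ∈ range R, ee ((k : ℝ) * t)))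
  have h4 : (R : ℝ) * (Real.sqrt 2 / 2) ≤ ‖∑ k ∈ range R, ee ((k : ℝ) * t)‖ := h2.trans h3
  have h5 := pow_le_pow_left₀ (by positivity) h4 2
  refine le_trans (le_of_eq ?_) h5
  rw [mul_pow, div_pow, Real.sq_sqrt (by norm_num)]
  ring

lemma expand (F : Finset ℕ) (R : ℕ) (M : ℝ) :
    ∑ k ∈ range R, ∑ l ∈ range R, ‖∑ a ∈ F, ee ((a : ℝ) * (((k : ℝ) - l) / M))‖ ^ 2 =
      ∑ a ∈ F, ∑ b ∈ F, ‖∑ k ∈ range R, ee ((k : ℝ) * (((a : ℝ) - b) / M))‖ ^ 2 := by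
  have h1 : ∀ k l : ℕ, ((‖∑ a ∈ F, ee ((a : ℝ) * (((k : ℝ) - l) / M))‖ : ℂ)) ^ 2 =
      ∑ a ∈ F, ∑ b ∈ F, ee (((a : ℝ) - b) * ((k : ℝ) - l) / M) := by
    intro k l
    rw [← Complex.mul_conj', map_sum, sum_mul_sum]
    refine sum_congr rfl fun a _ => sum_congr rfl fun b _ => ?_
    rw [ls_conj_ee, ← ls_ee_add]
    congr 1
    ring
  have h2 : ∀ a b : ℕ, ((‖∑ k ∈ range R, ee ((k : ℝ) * (((a : ℝ) - b) / M))‖ : ℂ)) ^ 2 =
      ∑ k ∈ range R, ∑ l ∈ range R, ee (((a : ℝ) - b) * ((k : ℝ) - l) / M) := by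
    intro a b
    rw [← Complex.mul_conj', map_sum, sum_mul_sum]
    refine sum_congr rfl fun k _ => sum_congr rfl fun l _ => ?_
    rw [ls_conj_ee, ← ls_ee_add]
    congr 1
    ring
  have h3 : ((∑ k ∈ range R, ∑ l ∈ range R, ‖∑ a ∈ F, ee ((a : ℝ) * (((k : ℝ) - l) / M))‖ ^ 2 : ℝ) : ℂ) =
      ((∑ a ∈ F, ∑ b ∈ F, ‖∑ k ∈ range R, ee ((k : ℝ) * (((a : ℝ) - b) / M))‖ ^ 2 : ℝ) : ℂ) := by
    push_cast
    simp only [h1, h2]
    rw [sum_comm]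
    have e1 : ∀ l ∈ range R, ∑ k ∈ range R, ∑ a ∈ F, ∑ b ∈ F, ee (((a : ℝ) - b) * ((k : ℝ) - l) / M) =
        ∑ a ∈ F, ∑ b ∈ F, ∑ k ∈ range R, ee (((a : ℝ) - b) * ((k : ℝ) - l) / M) := by
      intro l _
      rw [sum_comm]
      refine sum_congr rfl fun a _ => ?_
      rw [sum_comm]
    rw [sum_congr rfl e1, sum_comm]
    refine sum_congr rfl fun a _ => ?_
    rw [sum_comm]
    refine sum_congr rfl fun b _ => ?_
    rw [sum_comm]
  exact_mod_cast h3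

/-- the square of the exponential sum -/
noncomputable def uu (F : Finset ℕ) (m : ℕ) (ξ : ℤ) : ℝ := ‖∑ a ∈ F, ee ((a : ℝ) * ((ξ : ℝ) / 2 ^ m))‖ ^ 2

lemma uu_nonneg (F : Finset ℕ) (m : ℕ) (ξ : ℤ) : 0 ≤ uu F m ξ := by unfold uu; positivity

/-- the low frequencies -/
lemma low (F : Finset ℕ) (i j m : ℕ) (h : i + j + 3 = m) :
    (2 : ℝ) ^ j / 2 * ∑ d ∈ Ioo (-(2 : ℤ) ^ i) (2 ^ i), dif F d ≤ ∑ ξ ∈ Ioo (-(2 : ℤ) ^ j) (2 ^ j), uu F m ξ := by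
  set R : ℕ := 2 ^ j with hR
  have hR0 : (0 : ℝ) < R := by rw [hR]; positivity
  have hRr : (R : ℝ) = 2 ^ j := by rw [hR]; push_cast; ring
  have hRz : ((R : ℕ) : ℤ) = 2 ^ j := by rw [hR]; push_cast; ring
  have h1 : ∑ k ∈ range R, ∑ l ∈ range R, uu F m ((k : ℤ) - l) ≤ R * ∑ ξ ∈ Ioo (-(2 : ℤ) ^ j) (2 ^ j), uu F m ξ := by
    rw [sum_comm, ← nsmul_eq_mul, ← card_range R, ← sum_const, card_range]
    apply sum_le_sum
    intro l hl
    rw [mem_range] at hl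
    have h2 : ∑ k ∈ range R, uu F m ((k : ℤ) - l) = ∑ ξ ∈ (range R).image (fun k : ℕ => (k : ℤ) - l), uu F m ξ := by
      rw [sum_image]
      intro a _ b _ hab
      simp only at hab
      omega
    rw [h2]
    apply sum_le_sum_of_subset_of_nonneg
    · intro ξ hξ
      rw [mem_image] at hξ
      obtain ⟨k, hk, rfl⟩ := hξ
      rw [mem_range] at hk
      rw [mem_Ioo, ← hRz]
      constructor <;> omega
    · intro ξ _ _
      exact uu_nonneg F m ξ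
  have h2 : ∑ k ∈ range R, ∑ l ∈ range R, uu F m ((k : ℤ) - l) =
      ∑ a ∈ F, ∑ b ∈ F, ‖∑ k ∈ range R, ee ((k : ℝ) * (((a : ℝ) - b) / 2 ^ m))‖ ^ 2 := by
    rw [← expand]
    refine sum_congr rfl fun k _ => sum_congr rfl fun l _ => ?_
    unfold uu
    push_cast
    rfl
  rw [h2] at h1
  have h3 : ∑ d ∈ Ioo (-(2 : ℤ) ^ i) (2 ^ i), dif F d =
      (((F ×ˢ F).filter (fun p => (p.1 : ℤ) - p.2 ∈ Ioo (-(2 : ℤ) ^ i) (2 ^ i))).card : ℝ) := by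
    rw [card_eq_sum_card_fiberwise (f := fun p : ℕ × ℕ => (p.1 : ℤ) - p.2) (t := Ioo (-(2 : ℤ) ^ i) (2 ^ i))
      (s := (F ×ˢ F).filter (fun p => (p.1 : ℤ) - p.2 ∈ Ioo (-(2 : ℤ) ^ i) (2 ^ i))) (fun p hp => (mem_filter.1 hp).2)]
    push_cast
    apply sum_congr rfl
    intro d hd
    unfold dif
    congr 2
    ext p
    simp only [mem_filter, mem_product]
    constructor
    · rintro ⟨h, h'⟩
      exact ⟨⟨h, by rw [h']; exact hd⟩, h'⟩
    · rintro ⟨⟨h, _⟩, h'⟩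
      exact ⟨h, h'⟩
  rw [h3]
  set Q := (F ×ˢ F).filter (fun p => (p.1 : ℤ) - p.2 ∈ Ioo (-(2 : ℤ) ^ i) (2 ^ i)) with hQ
  have h4 : (Q.card : ℝ) * ((R : ℝ) ^ 2 / 2) ≤ ∑ a ∈ F, ∑ b ∈ F, ‖∑ k ∈ range R, ee ((k : ℝ) * (((a : ℝ) - b) / 2 ^ m))‖ ^ 2 := by
    rw [← sum_product' (f := fun a b : ℕ => ‖∑ k ∈ range R, ee ((k : ℝ) * (((a : ℝ) - b) / 2 ^ m))‖ ^ 2), ← nsmul_eq_mul, ← sum_const]
    refine (sum_le_sum ?_).trans (sum_le_sum_of_subset_of_nonneg (filter_subset _ _) (fun _ _ _ => by positivity))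
    intro p hp
    rw [hQ, mem_filter, mem_Ioo] at hp
    apply geo_low
    intro k hk
    have h5 : |((p.1 : ℝ) - p.2)| ≤ 2 ^ i := by
      rw [abs_le]
      have h6 : ((-(2 : ℤ) ^ i : ℤ) : ℝ) < (((p.1 : ℤ) - p.2 : ℤ) : ℝ) := by exact_mod_cast hp.2.1
      have h7 : (((p.1 : ℤ) - p.2 : ℤ) : ℝ) < (((2 : ℤ) ^ i : ℤ) : ℝ) := by exact_mod_cast hp.2.2
      push_cast at h6 h7
      constructor <;> linarith
    have h6 : (k : ℝ) ≤ 2 ^ j := by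
      rw [← hRr]
      exact_mod_cast hk.le
    rw [abs_mul, Nat.abs_cast, abs_div, abs_of_pos (by positivity : (0 : ℝ) < 2 ^ m)]
    have h7 : (k : ℝ) * (|((p.1 : ℝ) - p.2)| / 2 ^ m) ≤ 2 ^ j * (2 ^ i / 2 ^ m) := by
      apply mul_le_mul h6 _ (by positivity) (by positivity)
      exact div_le_div_of_nonneg_right h5 (by positivity)
    refine h7.trans (le_of_eq ?_)
    rw [← h, pow_add, pow_add]
    field_simp
    norm_num
  have h5 := h4.trans h1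
  have h6 : (R : ℝ) * (2 ^ j / 2 * Q.card) ≤ R * ∑ ξ ∈ Ioo (-(2 : ℤ) ^ j) (2 ^ j), uu F m ξ := by
    refine le_trans (le_of_eq ?_) h5
    rw [hRr]
    ring
  exact le_of_mul_le_mul_left h6 hR0

/-- the large sieve -/
lemma high (F : Finset ℕ) (N : ℕ) (hF : F ⊆ Icc 1 N) (h : ℕ) (hh : 1 ≤ h) (m J : ℕ) (hJ : J + 3 = m) :
    ∑ ξ ∈ Ioo (-(2 : ℤ) ^ J) (2 ^ J), uu F m ξ ^ h ≤ 6 * (h * N + (2 : ℝ) ^ m) * ∑ n ∈ Icc 1 (h * N), (RF F h n : ℝ) ^ 2 := by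
  classical
  have hm0 : (0 : ℝ) < 2 ^ m := by positivity
  have h1 := moment_sep hF hh (2 ^ m) (Nat.one_le_two_pow) ((Ioo (-(2 : ℤ) ^ J) (2 ^ J)).image (fun ξ : ℤ => (ξ : ℝ) / 2 ^ m)) (by
    intro r hr s hs hrs
    rw [mem_image] at hr hs
    obtain ⟨ξ, hξ, rfl⟩ := hr
    obtain ⟨ζ, hζ, rfl⟩ := hs
    rw [mem_Ioo] at hξ hζ
    have hne : ξ ≠ ζ := fun h => hrs (by rw [h])
    have e0 : (ζ : ℝ) / 2 ^ m - (ξ : ℝ) / 2 ^ m = ((ζ - ξ : ℤ) : ℝ) / 2 ^ m := by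
      push_cast
      ring
    have h2J : (2 : ℤ) ^ m = 8 * 2 ^ J := by rw [← hJ, pow_add]; ring
    have hJ0 : (0 : ℤ) < 2 ^ J := by positivity
    unfold lsSep
    rw [e0]
    push_cast
    rcases lt_or_gt_of_ne hne with hlt | hgt
    · have e1 : Int.fract (((ζ - ξ : ℤ) : ℝ) / 2 ^ m) = ((ζ - ξ : ℤ) : ℝ) / 2 ^ m := by
        rw [Int.fract_eq_self]
        constructor
        · apply div_nonneg _ hm0.le
          exact_mod_cast (by omega : (0 : ℤ) ≤ ζ - ξ)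
        · rw [div_lt_one hm0]
          exact_mod_cast (by omega : ζ - ξ < 2 ^ m)
      push_cast at e1
      rw [e1]
      constructor
      · apply div_le_div_of_nonneg_right _ hm0.le
        exact_mod_cast (by omega : (1 : ℤ) ≤ ζ - ξ)
      · rw [div_le_iff₀ hm0, sub_mul, one_mul, div_mul_cancel₀ _ hm0.ne']
        exact_mod_cast (by omega : ζ - ξ ≤ 2 ^ m - 1)
    · have e1 : Int.fract (((ζ - ξ : ℤ) : ℝ) / 2 ^ m) = ((ζ - ξ + 2 ^ m : ℤ) : ℝ) / 2 ^ m := by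
        rw [Int.fract_eq_iff]
        refine ⟨?_, ?_, -1, ?_⟩
        · apply div_nonneg _ hm0.le
          exact_mod_cast (by omega : (0 : ℤ) ≤ ζ - ξ + 2 ^ m)
        · rw [div_lt_one hm0]
          exact_mod_cast (by omega : ζ - ξ + 2 ^ m < 2 ^ m)
        · push_cast
          field_simp
          ring
      push_cast at e1
      rw [e1]
      constructor
      · apply div_le_div_of_nonneg_right _ hm0.le
        exact_mod_cast (by omega : (1 : ℤ) ≤ ζ - ξ + 2 ^ m)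
      · rw [div_le_iff₀ hm0, sub_mul, one_mul, div_mul_cancel₀ _ hm0.ne']
        exact_mod_cast (by omega : ζ - ξ + 2 ^ m ≤ 2 ^ m - 1))
  have h2 : ∑ ξ ∈ Ioo (-(2 : ℤ) ^ J) (2 ^ J), uu F m ξ ^ h =
      ∑ x ∈ (Ioo (-(2 : ℤ) ^ J) (2 ^ J)).image (fun ξ : ℤ => (ξ : ℝ) / 2 ^ m), ‖Sf (ind F) x‖ ^ (2 * h) := by
    rw [sum_image]
    · apply sum_congr rfl
      intro ξ _
      unfold uu
      rw [Sf_ind, ← pow_mul]
    · intro a _ b _ hab
      simp only at hab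
      rw [div_left_inj' hm0.ne'] at hab
      exact_mod_cast hab
  rw [h2]
  refine h1.trans (le_of_eq ?_)
  push_cast
  rfl

/-- **covering numbers and representations, order `h`** -/
theorem cover (p : ℕ) (hp : 1 ≤ p) (F : Finset ℕ) (N : ℕ) (hN : 1 ≤ N) (hF : F ⊆ Icc 1 N) (R : ℕ) (hR : ∀ n, RF F (p + 1) n ≤ R) :
    ∑ i ∈ range (Nat.log 2 N + 1), (F.card : ℝ) ^ (p + 1) / ((2 : ℝ) ^ i * (box F i : ℝ) ^ (p + 1)) ≤
      16 * 6 ^ (p + 1) * (p + 5) * R := by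
  rcases Nat.eq_zero_or_pos F.card with h0 | h0
  · rw [h0]
    have : ∀ i ∈ range (Nat.log 2 N + 1), ((0 : ℕ) : ℝ) ^ (p + 1) / ((2 : ℝ) ^ i * (box F i : ℝ) ^ (p + 1)) = 0 := by
      intro i _
      simp
    rw [sum_congr rfl this, sum_const_zero]
    positivity
  have hF0 : (0 : ℝ) < F.card := by exact_mod_cast h0
  set J := Nat.log 2 N with hJ
  have h1 := hardy p hp (uu F (J + 3)) (uu_nonneg F (J + 3)) J
  have h2 := high F N hF (p + 1) (by omega) (J + 3) J rfl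
  have h3 : ∑ n ∈ Icc 1 ((p + 1) * N), (RF F (p + 1) n : ℝ) ^ 2 ≤ R * (F.card : ℝ) ^ (p + 1) := by
    have e1 : ∑ n ∈ Icc 1 ((p + 1) * N), (RF F (p + 1) n : ℝ) ^ 2 ≤ ∑ n ∈ Icc 1 ((p + 1) * N), (R : ℝ) * RF F (p + 1) n := by
      apply sum_le_sum
      intro n _
      rw [sq]
      apply mul_le_mul_of_nonneg_right _ (Nat.cast_nonneg _)
      exact_mod_cast hR n
    refine e1.trans ?_
    rw [← mul_sum]
    apply mul_le_mul_of_nonneg_left _ (Nat.cast_nonneg _)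
    have e2 : ∑ n ∈ Icc 1 ((p + 1) * N), RF F (p + 1) n ≤ (tup F (p + 1)).card := by
      unfold RF
      have e3 := card_eq_sum_card_fiberwise (f := fun v : Fin (p + 1) → ℕ => ∑ i, v i) (t := Icc 1 ((p + 1) * N))
        (s := (tup F (p + 1)).filter (fun v => ∑ i, v i ∈ Icc 1 ((p + 1) * N))) (fun v hv => (mem_filter.1 hv).2)
      refine le_trans (le_of_eq ?_) (card_filter_le (tup F (p + 1)) (fun v => ∑ i, v i ∈ Icc 1 ((p + 1) * N)))
      rw [e3]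
      apply sum_congr rfl
      intro n hn
      congr 1
      ext v
      simp only [mem_filter]
      constructor
      · rintro ⟨h, h'⟩
        exact ⟨⟨h, by rw [h']; exact hn⟩, h'⟩
      · rintro ⟨⟨h, _⟩, h'⟩
        exact ⟨h, h'⟩
    have e3 : (tup F (p + 1)).card = F.card ^ (p + 1) := by
      unfold tup
      rw [Fintype.card_piFinset_const]
    rw [e3] at e2
    exact_mod_cast e2
  -- the terms
  have h4 : ∀ i ∈ range (J + 1), (2 : ℝ) ^ J * (F.card : ℝ) ^ (p + 1) / 2 ^ (p + 1) *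
      ((F.card : ℝ) ^ (p + 1) / ((2 : ℝ) ^ i * (box F i : ℝ) ^ (p + 1))) ≤
      (∑ d ∈ Ioo (-(2 : ℤ) ^ (J - i)) (2 ^ (J - i)), uu F (J + 3) d) ^ (p + 1) / ((2 : ℝ) ^ (J - i)) ^ p := by
    intro i hi
    rw [mem_range] at hi
    have e1 := low F i (J - i) (J + 3) (by omega)
    have e2 := box_le F i
    have e3 : 0 < box F i := by
      unfold Pool.Agent.R509.ET.box
      rw [card_pos]
      exact (card_pos.1 h0).image _
    have e4 : (0 : ℝ) < box F i := by exact_mod_cast e3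
    set P := ∑ d ∈ Ioo (-(2 : ℤ) ^ i) (2 ^ i), dif F d with hP
    set U := ∑ d ∈ Ioo (-(2 : ℤ) ^ (J - i)) (2 ^ (J - i)), uu F (J + 3) d with hU
    have e5 : (F.card : ℝ) ^ 2 / box F i ≤ P := by
      rw [div_le_iff₀ e4]
      linarith
    have e6 : (2 : ℝ) ^ (J - i) / 2 * ((F.card : ℝ) ^ 2 / box F i) ≤ U := (mul_le_mul_of_nonneg_left e5 (by positivity)).trans e1
    have e7 := pow_le_pow_left₀ (by positivity) e6 (p + 1)
    rw [le_div_iff₀ (by positivity)]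
    refine le_trans (le_of_eq ?_) e7
    have e8 : (2 : ℝ) ^ J = 2 ^ i * 2 ^ (J - i) := by rw [← pow_add]; congr 1; omega
    rw [e8, mul_pow, div_pow, div_pow]
    have e9 : ((F.card : ℝ) ^ 2) ^ (p + 1) = (F.card : ℝ) ^ (p + 1) * (F.card : ℝ) ^ (p + 1) := by rw [← pow_mul, ← pow_add]; congr 1; ring
    rw [e9, pow_succ ((2 : ℝ) ^ (J - i)) p]
    field_simp
  have h5 := sum_le_sum h4
  rw [← mul_sum] at h5
  have h6 : ∑ i ∈ range (J + 1), (∑ d ∈ Ioo (-(2 : ℤ) ^ (J - i)) (2 ^ (J - i)), uu F (J + 3) d) ^ (p + 1) / ((2 : ℝ) ^ (J - i)) ^ p =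
      ∑ j ∈ range (J + 1), (∑ d ∈ Ioo (-(2 : ℤ) ^ j) (2 ^ j), uu F (J + 3) d) ^ (p + 1) / ((2 : ℝ) ^ j) ^ p := by
    have := sum_range_reflect (fun j => (∑ d ∈ Ioo (-(2 : ℤ) ^ j) (2 ^ j), uu F (J + 3) d) ^ (p + 1) / ((2 : ℝ) ^ j) ^ p) (J + 1)
    rw [← this]
    apply sum_congr rfl
    intro i _
    simp only [Nat.add_sub_cancel]
  rw [h6] at h5
  set Sg := ∑ i ∈ range (J + 1), (F.card : ℝ) ^ (p + 1) / ((2 : ℝ) ^ i * (box F i : ℝ) ^ (p + 1)) with hSg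
  have hJ0 : (0 : ℝ) < 2 ^ J := by positivity
  have hNJ : (N : ℝ) ≤ 2 * 2 ^ J := by
    have := Nat.lt_pow_succ_log_self (b := 2) (by norm_num) N
    rw [← hJ, pow_succ] at this
    have h7 : (N : ℝ) ≤ ((2 ^ J * 2 : ℕ) : ℝ) := by exact_mod_cast this.le
    push_cast at h7
    linarith
  have h7 : 6 * (((p + 1 : ℕ) : ℝ) * N + (2 : ℝ) ^ (J + 3)) ≤ 12 * (p + 5) * 2 ^ J := by
    have e1 : (2 : ℝ) ^ (J + 3) = 8 * 2 ^ J := by rw [pow_add]; ring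
    rw [e1]
    push_cast
    have := mul_le_mul_of_nonneg_left hNJ (by positivity : (0 : ℝ) ≤ (p : ℝ) + 1)
    nlinarith
  have h8 : (2 : ℝ) ^ J * (F.card : ℝ) ^ (p + 1) / 2 ^ (p + 1) * Sg ≤
      4 * 3 ^ p * (12 * (p + 5) * 2 ^ J * (R * (F.card : ℝ) ^ (p + 1))) := by
    refine h5.trans (h1.trans ?_)
    apply mul_le_mul_of_nonneg_left _ (by positivity)
    refine h2.trans ?_
    apply mul_le_mul h7 h3 (by positivity) (by positivity)
  have h9 : (2 : ℝ) ^ J * (F.card : ℝ) ^ (p + 1) / 2 ^ (p + 1) * Sg ≤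
      (2 : ℝ) ^ J * (F.card : ℝ) ^ (p + 1) / 2 ^ (p + 1) * (16 * 6 ^ (p + 1) * (p + 5) * R) := by
    refine h8.trans (le_of_eq ?_)
    have e1 : (6 : ℝ) ^ (p + 1) = 2 ^ (p + 1) * (3 * 3 ^ p) := by
      rw [← pow_succ', ← mul_pow]
      norm_num
    rw [e1]
    field_simp
    ring
  exact le_of_mul_le_mul_left h9 (by positivity)

end Pool.Agent.R509.ETH
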