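import Pool.Agent.R509.ET.Cov

/-!
Library R509.ETH (helper509): a dyadic form of Hardy's inequality, of any order.
-/

set_option autoImplicit false

namespace Pool.Agent.R509.ETH

open Finset

lemma conv (p : ℕ) (a b : ℝ) (ha : 0 ≤ a) (hb : 0 ≤ b) : (a + b) ^ (p + 1) ≤ (3 / 2) ^ p * a ^ (p + 1) + 3 ^ p * b ^ (p + 1) := by
  have h := (convexOn_pow (𝕜 := ℝ) (p + 1)).2 (Set.mem_Ici.2 (by positivity : (0 : ℝ) ≤ 3 / 2 * a))
    (Set.mem_Ici.2 (by positivity : (0 : ℝ) ≤ 3 * b)) (by norm_num : (0 : ℝ) ≤ 2 / 3) (by norm_num : (0 : ℝ) ≤ 1 / 3) (by norm_num)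
  simp only [smul_eq_mul] at h
  have e1 : 2 / 3 * (3 / 2 * a) + 1 / 3 * (3 * b) = a + b := by ring
  rw [e1] at h
  refine h.trans (le_of_eq ?_)
  rw [mul_pow, mul_pow, pow_succ (3 / 2 : ℝ), pow_succ (3 : ℝ)]
  ring

/-- a dyadic form of Hardy's inequality -/
lemma hardy (p : ℕ) (hp : 1 ≤ p) (u : ℤ → ℝ) (hu : ∀ ξ, 0 ≤ u ξ) (J : ℕ) :
    ∑ j ∈ range (J + 1), (∑ d ∈ Ioo (-(2 : ℤ) ^ j) (2 ^ j), u d) ^ (p + 1) / ((2 : ℝ) ^ j) ^ p ≤
      4 * 3 ^ p * ∑ d ∈ Ioo (-(2 : ℤ) ^ J) (2 ^ J), u d ^ (p + 1) := by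
  have key : ∀ J : ℕ, ∑ j ∈ range (J + 1), (∑ d ∈ Ioo (-(2 : ℤ) ^ j) (2 ^ j), u d) ^ (p + 1) / ((2 : ℝ) ^ j) ^ p +
      3 * ((∑ d ∈ Ioo (-(2 : ℤ) ^ J) (2 ^ J), u d) ^ (p + 1) / ((2 : ℝ) ^ J) ^ p) ≤
      4 * 3 ^ p * ∑ d ∈ Ioo (-(2 : ℤ) ^ J) (2 ^ J), u d ^ (p + 1) := by
    intro J
    induction J with
    | zero =>
      have h0 : Ioo (-(2 : ℤ) ^ 0) (2 ^ 0) = {0} := by
        ext d
        rw [mem_Ioo, mem_singleton]
        norm_num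
        omega
      rw [sum_range_one, h0, sum_singleton, sum_singleton]
      norm_num
      have h1 : 0 ≤ u 0 ^ (p + 1) := pow_nonneg (hu 0) _
      have h2 : (1 : ℝ) ≤ 3 ^ p := one_le_pow₀ (by norm_num)
      nlinarith
    | succ J ih =>
      rw [sum_range_succ]
      set M := ∑ d ∈ Ioo (-(2 : ℤ) ^ J) (2 ^ J), u d with hM
      set En := ∑ d ∈ Ioo (-(2 : ℤ) ^ J) (2 ^ J), u d ^ (p + 1) with hEn
      have h2 : (0 : ℤ) < 2 ^ J := by positivity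
      have h2s : (2 : ℤ) ^ (J + 1) = 2 * 2 ^ J := by ring
      have hsub : Ioo (-(2 : ℤ) ^ J) (2 ^ J) ⊆ Ioo (-(2 : ℤ) ^ (J + 1)) (2 ^ (J + 1)) := by
        intro d hd
        rw [mem_Ioo] at hd ⊢
        omega
      set An := Ioo (-(2 : ℤ) ^ (J + 1)) (2 ^ (J + 1)) \ Ioo (-(2 : ℤ) ^ J) (2 ^ J) with hAn
      have hcard : (An.card : ℝ) = 2 ^ (J + 1) := by
        rw [hAn, card_sdiff_of_subset hsub, Int.card_Ioo, Int.card_Ioo]
        have h3 : ((2 : ℤ) ^ (J + 1) - -2 ^ (J + 1) - 1).toNat - ((2 : ℤ) ^ J - -2 ^ J - 1).toNat = 2 ^ (J + 1) := by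
          have h4 : ((2 ^ (J + 1) : ℕ) : ℤ) = 2 * 2 ^ J := by push_cast; ring
          have h5 : ((2 ^ J : ℕ) : ℤ) = 2 ^ J := by push_cast; ring
          omega
        rw [h3]
        push_cast
        ring
      have hsum1 : ∑ d ∈ Ioo (-(2 : ℤ) ^ (J + 1)) (2 ^ (J + 1)), u d = M + ∑ d ∈ An, u d := by
        exact (sum_sdiff hsub).symm.trans (add_comm _ _)
      have hsum2 : ∑ d ∈ Ioo (-(2 : ℤ) ^ (J + 1)) (2 ^ (J + 1)), u d ^ (p + 1) = En + ∑ d ∈ An, u d ^ (p + 1) := by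
        exact (sum_sdiff hsub).symm.trans (add_comm _ _)
      have hM0 : 0 ≤ M := sum_nonneg fun d _ => hu d
      have hcs : (∑ d ∈ An, u d) ^ (p + 1) ≤ ((2 : ℝ) ^ (J + 1)) ^ p * ∑ d ∈ An, u d ^ (p + 1) := by
        have h3 := pow_sum_div_card_le_sum_pow (s := An) (f := u) (fun d _ => hu d) p
        rw [hcard, div_le_iff₀ (by positivity)] at h3
        linarith
      rw [hsum1, hsum2]
      set b := ∑ d ∈ An, u d with hb
      have hb0 : 0 ≤ b := sum_nonneg fun d _ => hu d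
      set e := ∑ d ∈ An, u d ^ (p + 1) with he
      set q := M ^ (p + 1) / ((2 : ℝ) ^ J) ^ p with hq
      have hq0 : 0 ≤ q := by rw [hq]; positivity
      have h6 : (M + b) ^ (p + 1) / ((2 : ℝ) ^ (J + 1)) ^ p ≤ 3 / 4 * q + 3 ^ p * e := by
        rw [div_le_iff₀ (by positivity)]
        refine (conv p M b hM0 hb0).trans ?_
        have h7 : M ^ (p + 1) = q * ((2 : ℝ) ^ J) ^ p := by
          rw [hq]
          field_simp
        have h8 : ((2 : ℝ) ^ (J + 1)) ^ p = 2 ^ p * ((2 : ℝ) ^ J) ^ p := by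
          rw [pow_succ (2 : ℝ) J, mul_pow]
          ring
        have h9 : (3 / 2 : ℝ) ^ p ≤ 3 / 4 * 2 ^ p := by
          have h10 : (3 / 2 : ℝ) ^ p = (3 / 4) ^ p * 2 ^ p := by
            rw [← mul_pow]
            norm_num
          rw [h10]
          apply mul_le_mul_of_nonneg_right _ (by positivity)
          calc (3 / 4 : ℝ) ^ p ≤ (3 / 4) ^ 1 := pow_le_pow_of_le_one (by norm_num) (by norm_num) hp
            _ = 3 / 4 := by norm_num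
        have h10 : (3 / 2 : ℝ) ^ p * M ^ (p + 1) ≤ 3 / 4 * q * ((2 : ℝ) ^ (J + 1)) ^ p := by
          rw [h7, h8]
          calc (3 / 2 : ℝ) ^ p * (q * ((2 : ℝ) ^ J) ^ p) ≤ (3 / 4 * 2 ^ p) * (q * ((2 : ℝ) ^ J) ^ p) :=
                mul_le_mul_of_nonneg_right h9 (by positivity)
            _ = _ := by ring
        have h11 : (3 : ℝ) ^ p * b ^ (p + 1) ≤ 3 ^ p * e * ((2 : ℝ) ^ (J + 1)) ^ p := by
          calc (3 : ℝ) ^ p * b ^ (p + 1) ≤ 3 ^ p * (((2 : ℝ) ^ (J + 1)) ^ p * e) :=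
                mul_le_mul_of_nonneg_left hcs (by positivity)
            _ = _ := by ring
        rw [add_mul]
        linarith
      linarith
  have h1 := key J
  have h2 : 0 ≤ 3 * ((∑ d ∈ Ioo (-(2 : ℤ) ^ J) (2 ^ J), u d) ^ (p + 1) / ((2 : ℝ) ^ J) ^ p) := by
    have : 0 ≤ ∑ d ∈ Ioo (-(2 : ℤ) ^ J) (2 ^ J), u d := sum_nonneg fun d _ => hu d
    positivity
  linarith

end Pool.Agent.R509.ETH
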